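import Mathlib

/-!
# Fuzzy implications satisfying only the contrapositive symmetry (CP)

For a strictly decreasing fuzzy negation `N` put `T (x, y) = (N y, N x)`. The law (CP) says that
`I` is invariant under `T`, and `T` preserves the order `(x, y) ≤ (x', y') ↔ x' ≤ x ∧ y ≤ y'` for
which fuzzy implications are monotone. If `N` is not involutive, take `z` with `N (N z) < z` and
`y` between `N (N z)` and `z`. The upper set generated by the `T`-orbit of `(z, y)` and by the pairs
`x ≤ y` is invariant, contains `(z, y)`, and does not contain `(z, N (N y))`. Its indicator function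
is a fuzzy implication with (CP) and without (L-CP) and (R-CP).
-/

set_option autoImplicit false

namespace Pool.Agent.Results.MP_e504dd_lc.OnlyCP

/-- the unit interval `[0,1]` of the reals -/
abbrev U : Type := Set.Icc (0 : ℝ) 1

/-- `N : [0,1] → [0,1]` is a fuzzy negation: non-increasing, `N 0 = 1` and `N 1 = 0` -/
structure IsFuzzyNegation (N : U → U) : Prop where
  anti : Antitone N
  zero : N 0 = 1
  one : N 1 = 0

/-- `N` is strong: `N (N x) = x` for all `x` -/
def IsStrong (N : U → U) : Prop := ∀ x, N (N x) = x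

/-- `I : [0,1]² → [0,1]` is a fuzzy implication: non-increasing in its first variable,
non-decreasing in its second variable, `I (0,0) = I (1,1) = 1` and `I (1,0) = 0` -/
structure IsFuzzyImplication (I : U → U → U) : Prop where
  anti_left : ∀ y, Antitone fun x => I x y
  mono_right : ∀ x, Monotone fun y => I x y
  zero_zero : I 0 0 = 1
  one_one : I 1 1 = 1
  one_zero : I 1 0 = 0

/-- (CP): `I (x, y) = I (N y, N x)` for all `x, y` -/
def CP (I : U → U → U) (N : U → U) : Prop := ∀ x y, I x y = I (N y) (N x)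

/-- (L-CP): `I (N x, y) = I (N y, x)` for all `x, y` -/
def LCP (I : U → U → U) (N : U → U) : Prop := ∀ x y, I (N x) y = I (N y) x

/-- (R-CP): `I (x, N y) = I (y, N x)` for all `x, y` -/
def RCP (I : U → U → U) (N : U → U) : Prop := ∀ x y, I x (N y) = I y (N x)

/-- `I` satisfies only (CP) with respect to `N` -/
def SatisfiesOnlyCP (I : U → U → U) (N : U → U) : Prop := CP I N ∧ ¬ LCP I N ∧ ¬ RCP I N

section construction

variable {N : U → U}

/-- the map `T (x, y) = (N y, N x)` -/
def T (N : U → U) (p : U × U) : U × U := (N p.2, N p.1)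

/-- the order for which fuzzy implications are monotone -/
def le' (p q : U × U) : Prop := q.1 ≤ p.1 ∧ p.2 ≤ q.2

lemma le'_trans {p q r : U × U} (h : le' p q) (h' : le' q r) : le' p r :=
  ⟨h'.1.trans h.1, h.2.trans h'.2⟩

lemma T_le' (hN : Antitone N) {p q : U × U} (h : le' p q) : le' (T N p) (T N q) :=
  ⟨hN h.2, hN h.1⟩

lemma T_iter_le' (hN : Antitone N) {p q : U × U} (h : le' p q) (n : ℕ) :
    le' ((T N)^[n] p) ((T N)^[n] q) := by
  induction n with
  | zero => exact h
  | succ n ih =>
    rw [Function.iterate_succ_apply', Function.iterate_succ_apply']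
    exact T_le' hN ih

/-- the upper set generated by the orbit of `p₀` and the pairs `x ≤ y` -/
def Up (N : U → U) (p₀ : U × U) (p : U × U) : Prop :=
  p.1 ≤ p.2 ∨ ∃ n m : ℕ, le' ((T N)^[m] p₀) ((T N)^[n] p)

lemma Up_mono (hN : Antitone N) {p₀ p q : U × U} (h : le' p q) (hp : Up N p₀ p) : Up N p₀ q := by
  rcases hp with hp | ⟨n, m, hp⟩
  · exact Or.inl (h.1.trans (hp.trans h.2))
  · exact Or.inr ⟨n, m, le'_trans hp (T_iter_le' hN h n)⟩

lemma Up_T (hN : StrictAnti N) (p₀ p : U × U) : Up N p₀ (T N p) ↔ Up N p₀ p := by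
  constructor
  · rintro (h | ⟨n, m, h⟩)
    · exact Or.inl (hN.le_iff_ge.1 h)
    · exact Or.inr ⟨n + 1, m, by rwa [Function.iterate_succ_apply]⟩
  · rintro (h | ⟨n, m, h⟩)
    · exact Or.inl (hN.antitone h)
    · refine Or.inr ⟨n, m + 1, ?_⟩
      rw [← Function.iterate_succ_apply, Function.iterate_succ_apply', Function.iterate_succ_apply']
      exact T_le' hN.antitone h

open Classical in
/-- the implication: the indicator function of `Up` -/
noncomputable def J (N : U → U) (p₀ : U × U) (x y : U) : U := if Up N p₀ (x, y) then 1 else 0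

lemma J_le (N : U → U) (p₀ : U × U) {x y x' y' : U} (h : Up N p₀ (x, y) → Up N p₀ (x', y')) :
    J N p₀ x y ≤ J N p₀ x' y' := by
  unfold J
  by_cases h1 : Up N p₀ (x, y)
  · rw [if_pos h1, if_pos (h h1)]
  · rw [if_neg h1]
    exact (J N p₀ x' y').2.1

lemma T_two (k : ℕ) (p : U × U) : (T N)^[2 * k] p = ((N ∘ N)^[k] p.1, (N ∘ N)^[k] p.2) := by
  induction k with
  | zero => rfl
  | succ k ih =>
    rw [show 2 * (k + 1) = (2 * k + 1) + 1 by ring, Function.iterate_succ_apply',
      Function.iterate_succ_apply', ih, Function.iterate_succ_apply', Function.iterate_succ_apply']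
    rfl

lemma T_two_one (k : ℕ) (p : U × U) :
    (T N)^[2 * k + 1] p = (N ((N ∘ N)^[k] p.2), N ((N ∘ N)^[k] p.1)) := by
  rw [Function.iterate_succ_apply', T_two]
  rfl

end construction

theorem exists_onlyCP (N : U → U) (hN : IsFuzzyNegation N) (hs : StrictAnti N)
    (hns : ¬ IsStrong N) : ∃ I, IsFuzzyImplication I ∧ SatisfiesOnlyCP I N := by
  have hψ : StrictMono (N ∘ N) := hs.comp hs
  -- a point moved down by `N ∘ N`
  obtain ⟨z, hz⟩ : ∃ z, (N ∘ N) z < z := by
    unfold IsStrong at hns
    push Not at hns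
    obtain ⟨x, hx⟩ := hns
    rcases lt_or_gt_of_ne hx with h | h
    · exact ⟨x, h⟩
    · exact ⟨N x, hs h⟩
  obtain ⟨y, hy1, hy2⟩ := exists_between hz
  have hψy : (N ∘ N) y < y := (hψ hy2).trans hy1
  -- iterates of `N ∘ N` at `z` and `y` decrease
  have hdec : ∀ w : U, (N ∘ N) w < w → StrictAnti fun k : ℕ => (N ∘ N)^[k] w := by
    intro w hw
    refine strictAnti_nat_of_succ_lt fun k => ?_
    show (N ∘ N)^[k + 1] w < (N ∘ N)^[k] w
    rw [Function.iterate_succ_apply]
    exact hψ.iterate k hw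
  have hzd := hdec z hz
  have hyd := hdec y hψy
  -- all the iterates lie on one side of the fixed point of `N`
  have hside : (∀ a b : ℕ, (N ∘ N)^[a] y < N ((N ∘ N)^[b] z) ∧ (N ∘ N)^[a] z < N ((N ∘ N)^[b] y))
      ∨ (∀ a b : ℕ, N ((N ∘ N)^[b] y) < (N ∘ N)^[a] z ∧ N ((N ∘ N)^[b] z) < (N ∘ N)^[a] y) := by
    have hcomm : ∀ w : U, N ((N ∘ N) w) = (N ∘ N) (N w) := fun w => rfl
    rcases lt_trichotomy z (N z) with h | h | h
    · left
      have hL : ∀ u, u < N u → (N ∘ N) u < N ((N ∘ N) u) := fun u hu => by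
        rw [hcomm]; exact hψ hu
      have hLk : ∀ u, u < N u → ∀ k : ℕ, (N ∘ N)^[k] u < N ((N ∘ N)^[k] u) := by
        intro u hu k
        induction k with
        | zero => exact hu
        | succ k ih => rw [Function.iterate_succ_apply']; exact hL _ ih
      have hyL : y < N y := hy2.trans (h.trans (hs hy2))
      have hLL : ∀ u v : U, u < N u → v < N v → v < N u := by
        intro u v hu hv
        rcases le_total u v with huv | huv
        · exact hv.trans_le (hs.antitone huv)
        · exact huv.trans_lt hu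
      exact fun a b => ⟨hLL _ _ (hLk z h b) (hLk y hyL a), hLL _ _ (hLk y hyL b) (hLk z h a)⟩
    · exfalso
      have : (N ∘ N) z = z := by show N (N z) = z; rw [← h, ← h]
      exact hz.ne this
    · right
      have hR : ∀ u, N u < u → N ((N ∘ N) u) < (N ∘ N) u := fun u hu => by
        rw [hcomm]; exact hψ hu
      have hRk : ∀ u, N u < u → ∀ k : ℕ, N ((N ∘ N)^[k] u) < (N ∘ N)^[k] u := by
        intro u hu k
        induction k with
        | zero => exact hu
        | succ k ih => rw [Function.iterate_succ_apply']; exact hR _ ih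
      have hyR : N y < y := ((hs hy1).trans (hR z h)).trans hy1
      have hRR : ∀ u v : U, N u < u → N v < v → N u < v := by
        intro u v hu hv
        rcases le_total u v with huv | huv
        · exact hu.trans_le huv
        · exact (hs.antitone huv).trans_lt hv
      exact fun a b => ⟨hRR _ _ (hRk y hyR b) (hRk z h a), hRR _ _ (hRk z h b) (hRk y hyR a)⟩
  obtain ⟨p₀, hp₀⟩ : ∃ p₀ : U × U, p₀ = (z, y) := ⟨_, rfl⟩
  have hmem : Up N p₀ (z, y) := Or.inr ⟨0, 0, by rw [hp₀]; exact ⟨le_rfl, le_rfl⟩⟩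
  -- the point `(z, N (N y))` is not in the upper set
  have hnot : ¬ Up N p₀ (z, (N ∘ N) y) := by
    rintro (h | ⟨n, m, h⟩)
    · exact absurd (hψy.trans hy2) (not_lt.2 h)
    · rcases Nat.even_or_odd' n with ⟨a, rfl | rfl⟩ <;> rcases Nat.even_or_odd' m with ⟨b, rfl | rfl⟩
      · rw [hp₀, T_two, T_two] at h
        obtain ⟨h1, h2⟩ := h
        have h1' : b ≤ a := hzd.le_iff_ge.1 h1
        have h2' : (N ∘ N)^[b] y ≤ (N ∘ N)^[a + 1] y := by
          rw [Function.iterate_succ_apply]; exact h2
        have h3 : a + 1 ≤ b := hyd.le_iff_ge.1 h2'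
        omega
      · rw [hp₀, T_two, T_two_one] at h
        obtain ⟨h1, h2⟩ := h
        simp only at h1 h2
        rw [← Function.iterate_succ_apply] at h2
        rcases hside with hs' | hs'
        · exact absurd (hs' (a + 1) b).1 (not_lt.2 h2)
        · exact absurd (hs' a b).1 (not_lt.2 h1)
      · rw [hp₀, T_two, T_two_one] at h
        obtain ⟨h1, h2⟩ := h
        simp only at h1 h2
        rw [← Function.iterate_succ_apply] at h1
        rcases hside with hs' | hs'
        · exact absurd (hs' b (a + 1)).2 (not_lt.2 h1)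
        · exact absurd (hs' b a).2 (not_lt.2 h2)
      · rw [hp₀, T_two_one, T_two_one] at h
        obtain ⟨h1, h2⟩ := h
        simp only at h1 h2
        rw [← Function.iterate_succ_apply] at h1
        have h1' : a + 1 ≤ b := hyd.le_iff_ge.1 (hs.le_iff_ge.1 h1)
        have h2' : b ≤ a := hzd.le_iff_ge.1 (hs.le_iff_ge.1 h2)
        omega
  have hJ1 : ∀ {u v : U}, Up N p₀ (u, v) → J N p₀ u v = 1 := fun h => if_pos h
  have hJ0 : ∀ {u v : U}, ¬ Up N p₀ (u, v) → J N p₀ u v = 0 := fun h => if_neg h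
  have h10 : (1 : U) ≠ 0 := by
    intro h
    have := congrArg Subtype.val h
    norm_num at this
  have hCP : CP (J N p₀) N := by
    intro u v
    have h := Up_T hs p₀ (u, v)
    by_cases hu : Up N p₀ (u, v)
    · rw [hJ1 hu, hJ1 (h.2 hu)]
    · rw [hJ0 hu, hJ0 fun h' => hu (h.1 h')]
  refine ⟨J N p₀, ⟨?_, ?_, ?_, ?_, ?_⟩, hCP, ?_, ?_⟩
  · intro v u u' h
    exact J_le N p₀ (Up_mono hN.anti ⟨h, le_rfl⟩)
  · intro u v v' h
    exact J_le N p₀ (Up_mono hN.anti ⟨le_rfl, h⟩)
  · exact hJ1 (Or.inl le_rfl)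
  · exact hJ1 (Or.inl le_rfl)
  · refine hJ0 ?_
    -- `(1, 0)` is fixed by `T` and is the least point
    have hfix : ∀ n : ℕ, (T N)^[n] ((1 : U), (0 : U)) = (1, 0) := by
      intro n
      induction n with
      | zero => rfl
      | succ n ih =>
        rw [Function.iterate_succ_apply', ih]
        show (N 0, N 1) = (1, 0)
        rw [hN.zero, hN.one]
    rintro (h | ⟨n, m, h⟩)
    · exact h10 (le_antisymm h (Subtype.coe_le_coe.1 (by norm_num)))
    · rw [hfix] at h
      obtain ⟨h1, h2⟩ := h
      have hbot : ∀ w : U, (0 : U) ≤ w := fun w => w.2.1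
      have htop : ∀ w : U, w ≤ (1 : U) := fun w => w.2.2
      have hinj : Function.Injective N := hs.injective
      have e1 : ((T N)^[m] p₀) = (1, 0) := Prod.ext (le_antisymm (htop _) h1) (le_antisymm h2 (hbot _))
      -- pull back along the injective map `T`
      have hTinj : Function.Injective (T N) := by
        rintro ⟨a, b⟩ ⟨c, d⟩ h
        have h' : N b = N d ∧ N a = N c := Prod.ext_iff.1 h
        exact Prod.ext (hinj h'.2) (hinj h'.1)
      have e2 : p₀ = (1, 0) := (hTinj.iterate m) (e1.trans (hfix m).symm)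
      rw [hp₀] at e2
      have hz1 : z = 1 := congrArg Prod.fst e2
      have : (N ∘ N) z = z := by show N (N z) = z; rw [hz1, hN.one, hN.zero]
      exact hz.ne this
  · intro hL
    -- `x = N (N y)`, `y = N z`
    have h := hL ((N ∘ N) y) (N z)
    rw [hCP (N ((N ∘ N) y)) (N z)] at h
    have e1 : J N p₀ (N (N z)) (N (N ((N ∘ N) y))) = J N p₀ z ((N ∘ N) y) := by
      rw [hCP z ((N ∘ N) y), hCP (N ((N ∘ N) y)) (N z)]
    have e2 : J N p₀ (N (N z)) ((N ∘ N) y) = J N p₀ z y := by
      rw [hCP z y, hCP (N y) (N z)]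
      rfl
    rw [e1, e2, hJ0 hnot, hJ1 hmem] at h
    exact h10 h.symm
  · intro hR
    have h := hR (N y) z
    rw [← hCP z y, hJ1 hmem] at h
    rw [show N (N y) = (N ∘ N) y from rfl, hJ0 hnot] at h
    exact h10 h

/-- the involutive case: the three laws are equivalent -/
theorem not_onlyCP_of_strong (N : U → U) (h : IsStrong N) (I : U → U → U) :
    ¬ SatisfiesOnlyCP I N := by
  rintro ⟨h1, h2, -⟩
  refine h2 fun x y => ?_
  rw [h1 (N x) y, h x]

/-- the negation `1 - x²` -/
noncomputable def Nsq (x : U) : U :=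
  ⟨1 - (x : ℝ) ^ 2, by nlinarith [x.2.1, x.2.2], by nlinarith [x.2.1, x.2.2]⟩

theorem Nsq_strictAnti : StrictAnti Nsq := by
  intro x y h
  have h' : (x : ℝ) < y := h
  show 1 - (y : ℝ) ^ 2 < 1 - (x : ℝ) ^ 2
  nlinarith [x.2.1, y.2.1]

theorem Nsq_negation : IsFuzzyNegation Nsq :=
  ⟨Nsq_strictAnti.antitone, by ext; simp [Nsq], by ext; simp [Nsq]⟩

theorem Nsq_continuous : Continuous Nsq := by
  unfold Nsq
  fun_prop

theorem Nsq_not_strong : ¬ IsStrong Nsq := by
  intro h
  have h1 := h ⟨1 / 2, by norm_num, by norm_num⟩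
  have h2 := congrArg Subtype.val h1
  simp only [Nsq] at h2
  norm_num at h2

/-- **Fuzzy implications satisfying only (CP) exist.** There are a (continuous, strictly
decreasing) fuzzy negation `N` and a fuzzy implication `I` such that `I` satisfies (CP) but neither
(L-CP) nor (R-CP) with respect to `N`; moreover, for a strictly decreasing fuzzy negation `N` there
is such an `I` if and only if `N` is not strong. -/
theorem result :
    (∃ N : U → U, IsFuzzyNegation N ∧ StrictAnti N ∧ Continuous N ∧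
      ∃ I : U → U → U, IsFuzzyImplication I ∧ SatisfiesOnlyCP I N) ∧
    ∀ N : U → U, IsFuzzyNegation N → StrictAnti N →
      ((∃ I : U → U → U, IsFuzzyImplication I ∧ SatisfiesOnlyCP I N) ↔ ¬ IsStrong N) := by
  refine ⟨⟨Nsq, Nsq_negation, Nsq_strictAnti, Nsq_continuous,
    exists_onlyCP Nsq Nsq_negation Nsq_strictAnti Nsq_not_strong⟩, fun N hN hs => ⟨?_, ?_⟩⟩
  · rintro ⟨I, -, hI⟩ hst
    exact not_onlyCP_of_strong N hst I hI
  · exact exists_onlyCP N hN hs

end Pool.Agent.Results.MP_e504dd_lc.OnlyCP
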